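import Mathlib

/-!
# Antichains of diameter five (MP_f155e9_co): the count

`m σ` is the number of members with trace `σ` outside the cube of dimension five.
-/

set_option autoImplicit false

namespace Pool.Agent.F155S

open Finset

variable {α : Type*} [DecidableEq α]

theorem sum_pairs_insert (m : Finset α → ℕ) {e : α} {N : Finset α} (he : e ∉ N) :
    ∑ π ∈ powersetCard 2 (insert e N), m π =
      ∑ π ∈ powersetCard 2 N, m π + ∑ g ∈ N, m {e, g} := by
  rw [powersetCard_succ_insert he 1, sum_union, sum_image, powersetCard_one, sum_map]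
  · rfl
  · intro a ha b hb hab
    rw [mem_coe, mem_powersetCard] at ha hb
    have ha' : e ∉ a := fun h => he (ha.1 h)
    have hb' : e ∉ b := fun h => he (hb.1 h)
    rw [← erase_insert ha', ← erase_insert hb', hab]
  · rw [disjoint_left]
    intro a ha hb
    rw [mem_powersetCard] at ha
    rw [mem_image] at hb
    obtain ⟨b, _, rfl⟩ := hb
    exact he (ha.1 (mem_insert_self _ _))

/-- The properties of the numbers of labels. -/
structure Mult (N : Finset α) (m : Finset α → ℕ) : Prop where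
  a1 : ∀ e ∈ N, m {e} ≤ 6
  a2 : ∀ e ∈ N, ∀ f ∈ N, e ≠ f → 5 ≤ m {e} → m {f} ≤ 4
  a3 : ∀ π ∈ powersetCard 2 N, m π ≤ 6
  a4 : ∀ π ∈ powersetCard 2 N, ∀ π' ∈ powersetCard 2 N, Disjoint π π' → 2 ≤ m π → m π' ≤ 1
  a4' : ∀ π ∈ powersetCard 2 N, ∀ π' ∈ powersetCard 2 N, Disjoint π π' → 4 ≤ m π → m π' = 0
  a5 : ∀ π ∈ powersetCard 2 N, ∀ π' ∈ powersetCard 2 N, π ≠ π' → 5 ≤ m π → m π' ≤ 4
  a6 : ∀ π ∈ powersetCard 2 N, ∀ h ∈ N, h ∉ π → 2 ≤ m π → m {h} ≤ 4
  a7 : ∀ π ∈ powersetCard 2 N, ∀ π' ∈ powersetCard 2 N, Disjoint π π' → 3 ≤ m π → 1 ≤ m π' →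
    ∀ h ∈ N, h ∉ π → m {h} ≤ 3

theorem sum_le_mul {ι : Type*} (s : Finset ι) (f : ι → ℕ) (c : ℕ) (h : ∀ i ∈ s, f i ≤ c) :
    ∑ i ∈ s, f i ≤ c * s.card := by
  have := sum_le_card_nsmul s f c h
  rw [smul_eq_mul, mul_comm] at this
  exact this

theorem sum_le_one_more {ι : Type*} [DecidableEq ι] (s : Finset ι) (f : ι → ℕ) (a : ι)
    (ha : a ∈ s) (c : ℕ) (h : ∀ i ∈ s, i ≠ a → f i ≤ c) :
    ∑ i ∈ s, f i ≤ f a + c * (s.card - 1) := by
  rw [← add_sum_erase s f ha]
  have := sum_le_mul (s.erase a) f c (fun i hi => h i (mem_of_mem_erase hi) (ne_of_mem_erase hi))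
  rw [card_erase_of_mem ha] at this
  omega

theorem choose_two_add_two (t : ℕ) : (t + 2).choose 2 = t.choose 2 + 2 * t + 1 := by
  have h1 := Nat.choose_succ_succ (t + 1) 1
  have h2 := Nat.choose_succ_succ t 1
  simp only [Nat.choose_one_right] at h1 h2
  have h3 : (t + 2).choose 2 = (t + 1) + (t + 1).choose 2 := h1
  have h4 : (t + 1).choose 2 = t + t.choose 2 := h2
  omega

theorem le_choose_two (t : ℕ) : t ≤ t.choose 2 + 1 ∨ t = 2 := by
  rcases t with _ | _ | _ | t
  · left; simp
  · left; simp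
  · right; rfl
  · left
    have h : (t + 1 + 1 + 1).choose 2 = (t + 1).choose 2 + 2 * (t + 1) + 1 :=
      choose_two_add_two (t + 1)
    omega

/-- the case of a pair `{e, g₀}` with two labels, besides the pair `{e, f}` of maximal number -/
theorem aux {N : Finset α} {m : Finset α → ℕ} {e f : α} (hef : e ≠ f) (he : e ∉ N) (hf : f ∉ N)
    (H : Mult (insert e (insert f N)) m) (h2 : 2 ≤ m {e, f})
    (hmax : ∀ π ∈ powersetCard 2 (insert e (insert f N)), m π ≤ m {e, f})
    {g₀ : α} (hg₀ : g₀ ∈ N) (hh : 2 ≤ m {e, g₀}) :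
    m {e} + m {f} + ∑ g ∈ N, m {g} + (m {e, f} + ∑ g ∈ N, m {e, g} + ∑ g ∈ N, m {f, g} +
      ∑ π ∈ powersetCard 2 N, m π) ≤ N.card.choose 2 + 7 * N.card + 19 := by
  have hee : e ∈ insert e (insert f N) := mem_insert_self _ _
  have hff : f ∈ insert e (insert f N) := mem_insert_of_mem (mem_insert_self _ _)
  have hgg : ∀ g ∈ N, g ∈ insert e (insert f N) :=
    fun g hg => mem_insert_of_mem (mem_insert_of_mem hg)
  have hpair : ∀ a ∈ insert e (insert f N), ∀ b ∈ insert e (insert f N), a ≠ b →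
      ({a, b} : Finset α) ∈ powersetCard 2 (insert e (insert f N)) := by
    intro a ha b hb hab
    rw [mem_powersetCard]
    refine ⟨?_, card_pair hab⟩
    intro x hx
    rw [mem_insert, mem_singleton] at hx
    rcases hx with rfl | rfl <;> assumption
  have hne : ∀ g ∈ N, e ≠ g ∧ f ≠ g := fun g hg =>
    ⟨fun h => he (h ▸ hg), fun h => hf (h ▸ hg)⟩
  have hPef := hpair e hee f hff hef
  have hPe : ∀ g ∈ N, ({e, g} : Finset α) ∈ powersetCard 2 (insert e (insert f N)) :=
    fun g hg => hpair e hee g (hgg g hg) (hne g hg).1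
  have hPf : ∀ g ∈ N, ({f, g} : Finset α) ∈ powersetCard 2 (insert e (insert f N)) :=
    fun g hg => hpair f hff g (hgg g hg) (hne g hg).2
  have hPN : ∀ π ∈ powersetCard 2 N, π ∈ powersetCard 2 (insert e (insert f N)) := by
    intro π hπ
    rw [mem_powersetCard] at hπ ⊢
    exact ⟨hπ.1.trans ((subset_insert _ _).trans (subset_insert _ _)), hπ.2⟩
  have hdis : ∀ π ∈ powersetCard 2 N, Disjoint ({e, f} : Finset α) π := by
    intro π hπ
    rw [mem_powersetCard] at hπ
    rw [disjoint_left]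
    intro x hx hx'
    rw [mem_insert, mem_singleton] at hx
    rcases hx with rfl | rfl
    · exact he (hπ.1 hx')
    · exact hf (hπ.1 hx')
  have hdis2 : ∀ g ∈ N, ∀ g' ∈ N, g ≠ g' → Disjoint ({e, g} : Finset α) {f, g'} := by
    intro g hg g' hg' hgg'
    rw [disjoint_left]
    intro x hx hx'
    rw [mem_insert, mem_singleton] at hx hx'
    rcases hx with rfl | rfl <;> rcases hx' with hx' | hx'
    · exact hef hx'
    · exact (hne g' hg').1 hx'
    · exact (hne x hg).2 hx'.symm
    · exact hgg' hx'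
  -- general bounds
  have b1 : m {e} ≤ 6 := H.a1 e hee
  have b2 : m {f} ≤ 4 := by
    refine H.a6 _ (hPe g₀ hg₀) f hff ?_ hh
    rw [mem_insert, mem_singleton]
    push Not
    exact ⟨hef.symm, (hne g₀ hg₀).2⟩
  have b3 : ∑ g ∈ N, m {g} ≤ 4 * N.card := by
    refine sum_le_mul _ _ _ (fun g hg => H.a6 _ hPef g (hgg g hg) ?_ h2)
    rw [mem_insert, mem_singleton]
    push Not
    exact ⟨(hne g hg).1.symm, (hne g hg).2.symm⟩
  have b4 : m {e, f} ≤ 6 := H.a3 _ hPef
  have b5 : ∑ π ∈ powersetCard 2 N, m π ≤ N.card.choose 2 := by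
    have := sum_le_mul (powersetCard 2 N) m 1 (fun π hπ => H.a4 _ hPef _ (hPN π hπ) (hdis π hπ) h2)
    rw [card_powersetCard] at this
    omega
  have b6 : 4 ≤ m {e, f} → ∑ π ∈ powersetCard 2 N, m π = 0 := fun h =>
    sum_eq_zero (fun π hπ => H.a4' _ hPef _ (hPN π hπ) (hdis π hπ) h)
  have ht : 1 ≤ N.card := card_pos.2 ⟨g₀, hg₀⟩
  have htc := le_choose_two N.card
  have hmaxe : ∀ g ∈ N, m {e, g} ≤ m {e, f} := fun g hg => hmax _ (hPe g hg)
  have hmaxf : ∀ g ∈ N, m {f, g} ≤ m {e, f} := fun g hg => hmax _ (hPf g hg)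
  have hne1 : ∀ g ∈ N, ({e, f} : Finset α) ≠ {e, g} := by
    intro g hg h
    have : f ∈ ({e, g} : Finset α) := by rw [← h]; simp
    rw [mem_insert, mem_singleton] at this
    rcases this with h' | h'
    · exact hef h'.symm
    · exact (hne g hg).2 h'
  have hne2 : ∀ g ∈ N, ({e, f} : Finset α) ≠ {f, g} := by
    intro g hg h
    have : e ∈ ({f, g} : Finset α) := by rw [← h]; simp
    rw [mem_insert, mem_singleton] at this
    rcases this with h' | h'
    · exact hef h'
    · exact (hne g hg).1 h'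
  by_cases hB : ∃ g₁ ∈ N, 2 ≤ m {f, g₁}
  · -- triangle
    obtain ⟨g₁, hg₁, hh₁⟩ := hB
    have hg01 : g₀ = g₁ := by
      by_contra hcon
      have := H.a4 _ (hPe g₀ hg₀) _ (hPf g₁ hg₁) (hdis2 g₀ hg₀ g₁ hg₁ hcon) hh
      omega
    subst hg01
    have c1 : ∀ g ∈ N, g ≠ g₀ → m {e, g} ≤ 1 := fun g hg hgn =>
      H.a4 _ (hPf g₀ hg₀) _ (hPe g hg) (hdis2 g hg g₀ hg₀ hgn).symm hh₁
    have c2 : ∀ g ∈ N, g ≠ g₀ → m {f, g} ≤ 1 := fun g hg hgn =>
      H.a4 _ (hPe g₀ hg₀) _ (hPf g hg) (hdis2 g₀ hg₀ g hg hgn.symm) hh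
    have d1 := sum_le_one_more N (fun g => m {e, g}) g₀ hg₀ 1 c1
    have d2 := sum_le_one_more N (fun g => m {f, g}) g₀ hg₀ 1 c2
    have d3 : m {e} ≤ 4 := by
      refine H.a6 _ (hPf g₀ hg₀) e hee ?_ hh₁
      rw [mem_insert, mem_singleton]
      push Not
      exact ⟨hef, (hne g₀ hg₀).1⟩
    have e1 := hmaxe g₀ hg₀
    have e2 := hmaxf g₀ hg₀
    rcases Nat.lt_or_ge (m {e, f}) 5 with h5 | h5
    · rcases Nat.lt_or_ge (m {e, f}) 4 with h4 | h4
      · omega
      · have := b6 h4
        omega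
    · have f1 := H.a5 _ hPef _ (hPe g₀ hg₀) (hne1 g₀ hg₀) h5
      have f2 := H.a5 _ hPef _ (hPf g₀ hg₀) (hne2 g₀ hg₀) h5
      have := b6 (by omega)
      omega
  · -- star
    push Not at hB
    have c2 : ∑ g ∈ N, m {f, g} ≤ 1 * N.card :=
      sum_le_mul _ _ _ (fun g hg => by have := hB g hg; omega)
    rcases Nat.lt_or_ge (m {e, f}) 4 with h4 | h4
    · -- `b ≤ 3`
      rcases Nat.lt_or_ge (m {e, f}) 3 with h3 | h3
      · have c1 : ∑ g ∈ N, m {e, g} ≤ 2 * N.card :=
          sum_le_mul _ _ _ (fun g hg => by have := hmaxe g hg; omega)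
        omega
      · have c1 : ∑ g ∈ N, m {e, g} ≤ 3 * N.card :=
          sum_le_mul _ _ _ (fun g hg => by have := hmaxe g hg; omega)
        by_cases hD : ∃ π ∈ powersetCard 2 N, 1 ≤ m π
        · obtain ⟨π, hπ, hm⟩ := hD
          have b3' : ∑ g ∈ N, m {g} ≤ 3 * N.card := by
            refine sum_le_mul _ _ _ (fun g hg => H.a7 _ hPef _ (hPN π hπ) (hdis π hπ) h3 hm g
              (hgg g hg) ?_)
            rw [mem_insert, mem_singleton]
            push Not
            exact ⟨(hne g hg).1.symm, (hne g hg).2.symm⟩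
          omega
        · push Not at hD
          have : ∑ π ∈ powersetCard 2 N, m π = 0 :=
            sum_eq_zero (fun π hπ => by have := hD π hπ; omega)
          omega
    · -- `b ≥ 4`
      have hD := b6 h4
      by_cases hC : ∃ g₁ ∈ N, 4 ≤ m {e, g₁}
      · obtain ⟨g₁, hg₁, hh₁⟩ := hC
        have c3 : ∀ g ∈ N, g ≠ g₁ → m {f, g} ≤ 0 := fun g hg hgn =>
          (H.a4' _ (hPe g₁ hg₁) _ (hPf g hg) (hdis2 g₁ hg₁ g hg hgn.symm) hh₁).le
        have d2 := sum_le_one_more N (fun g => m {f, g}) g₁ hg₁ 0 c3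
        have d3 := hB g₁ hg₁
        have c1 : ∑ g ∈ N, m {e, g} ≤ 4 * N.card := by
          refine sum_le_mul _ _ _ (fun g hg => ?_)
          rcases Nat.lt_or_ge (m {e, f}) 5 with h5 | h5
          · have := hmaxe g hg
            omega
          · exact H.a5 _ hPef _ (hPe g hg) (hne1 g hg) h5
        omega
      · push Not at hC
        have c1 : ∑ g ∈ N, m {e, g} ≤ 3 * N.card :=
          sum_le_mul _ _ _ (fun g hg => by have := hC g hg; omega)
        omega

/-- The count. -/
theorem count {N : Finset α} {m : Finset α → ℕ} (H : Mult N m) :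
    ∑ e ∈ N, m {e} + ∑ π ∈ powersetCard 2 N, m π ≤ N.card.choose 2 + 5 * N.card + 8 := by
  by_cases hheavy : ∃ π ∈ powersetCard 2 N, 2 ≤ m π
  · obtain ⟨π₁, hπ₁, hm₁⟩ := hheavy
    obtain ⟨π, hπ, hmax⟩ := exists_max_image (powersetCard 2 N) m ⟨π₁, hπ₁⟩
    have h2 : 2 ≤ m π := hm₁.trans (hmax π₁ hπ₁)
    have hπ' := mem_powersetCard.1 hπ
    obtain ⟨e, f, hef, rfl⟩ := card_eq_two.1 hπ'.2
    have heN : e ∈ N := hπ'.1 (by simp)
    have hfN : f ∈ N := hπ'.1 (by simp)
    set N' := (N.erase e).erase f with hN'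
    have he' : e ∉ N' := by simp [hN']
    have hf' : f ∉ N' := by simp [hN']
    have hNe : N = insert e (insert f N') := by
      ext x
      simp only [hN', mem_insert, mem_erase]
      constructor
      · intro hx
        by_cases h1 : x = e
        · exact Or.inl h1
        · by_cases h2 : x = f
          · exact Or.inr (Or.inl h2)
          · exact Or.inr (Or.inr ⟨h2, h1, hx⟩)
      · rintro (rfl | rfl | ⟨_, _, h⟩)
        · exact heN
        · exact hfN
        · exact h
    clear_value N'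
    subst hNe
    have hcard : (insert e (insert f N')).card = N'.card + 2 := by
      rw [card_insert_of_notMem (by rw [mem_insert]; push Not; exact ⟨hef, he'⟩),
        card_insert_of_notMem hf']
    have hS : ∑ π ∈ powersetCard 2 (insert e (insert f N')), m π =
        m {e, f} + ∑ g ∈ N', m {e, g} + ∑ g ∈ N', m {f, g} + ∑ π ∈ powersetCard 2 N', m π := by
      rw [sum_pairs_insert m (by rw [mem_insert]; push Not; exact ⟨hef, he'⟩),
        sum_pairs_insert m hf', sum_insert hf']
      ring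
    have hP : ∑ x ∈ insert e (insert f N'), m {x} = m {e} + m {f} + ∑ g ∈ N', m {g} := by
      rw [sum_insert (by rw [mem_insert]; push Not; exact ⟨hef, he'⟩), sum_insert hf']
      ring
    rw [hS, hP, hcard, choose_two_add_two]
    by_cases c1 : ∃ g₀ ∈ N', 2 ≤ m {e, g₀}
    · obtain ⟨g₀, hg₀, hh⟩ := c1
      have := aux hef he' hf' H h2 hmax hg₀ hh
      omega
    · by_cases c2 : ∃ g₀ ∈ N', 2 ≤ m {f, g₀}
      · obtain ⟨g₀, hg₀, hh⟩ := c2
        rw [insert_comm] at H hmax
        rw [pair_comm] at h2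
        simp only [pair_comm e f] at hmax
        have := aux hef.symm hf' he' H h2 hmax hg₀ hh
        rw [pair_comm f e] at this
        omega
      · push Not at c1 c2
        have hPef : ({e, f} : Finset α) ∈ powersetCard 2 (insert e (insert f N')) := by
          rw [mem_powersetCard]
          refine ⟨?_, card_pair hef⟩
          intro x hx
          rw [mem_insert, mem_singleton] at hx
          rw [mem_insert, mem_insert]
          tauto
        have b1 := H.a1 e (mem_insert_self _ _)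
        have b2 := H.a1 f (mem_insert_of_mem (mem_insert_self _ _))
        have b3 : ∑ g ∈ N', m {g} ≤ 4 * N'.card := by
          refine sum_le_mul _ _ _ (fun g hg => H.a6 _ hPef g
            (mem_insert_of_mem (mem_insert_of_mem hg)) ?_ h2)
          rw [mem_insert, mem_singleton]
          rintro (rfl | rfl)
          · exact he' hg
          · exact hf' hg
        have b4 := H.a3 _ hPef
        have b5 : ∑ π ∈ powersetCard 2 N', m π ≤ N'.card.choose 2 := by
          have := sum_le_mul (powersetCard 2 N') m 1 (fun π hπ => by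
            have hπ2 := mem_powersetCard.1 hπ
            refine H.a4 _ hPef π ?_ ?_ h2
            · rw [mem_powersetCard]
              exact ⟨hπ2.1.trans ((subset_insert _ _).trans (subset_insert _ _)), hπ2.2⟩
            · rw [disjoint_left]
              intro x hx hx'
              rw [mem_insert, mem_singleton] at hx
              rcases hx with rfl | rfl
              · exact he' (hπ2.1 hx')
              · exact hf' (hπ2.1 hx'))
          rw [card_powersetCard] at this
          omega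
        have b6 : ∑ g ∈ N', m {e, g} ≤ 1 * N'.card :=
          sum_le_mul _ _ _ (fun g hg => by have := c1 g hg; omega)
        have b7 : ∑ g ∈ N', m {f, g} ≤ 1 * N'.card :=
          sum_le_mul _ _ _ (fun g hg => by have := c2 g hg; omega)
        omega
  · push Not at hheavy
    have b1 : ∑ π ∈ powersetCard 2 N, m π ≤ N.card.choose 2 := by
      have := sum_le_mul (powersetCard 2 N) m 1 (fun π hπ => by have := hheavy π hπ; omega)
      rw [card_powersetCard] at this
      omega
    have b2 : ∑ e ∈ N, m {e} ≤ 4 * N.card + 2 := by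
      by_cases h : ∃ e ∈ N, 5 ≤ m {e}
      · obtain ⟨e, he, h5⟩ := h
        have := sum_le_one_more N (fun e => m {e}) e he 4
          (fun i hi hie => H.a2 e he i hi hie.symm h5)
        have h6 := H.a1 e he
        have h7 : 1 ≤ N.card := card_pos.2 ⟨e, he⟩
        omega
      · push Not at h
        have := sum_le_mul N (fun e => m {e}) 4 (fun e he => by have := h e he; omega)
        omega
    omega

end Pool.Agent.F155S
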