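import Mathlib

/-!
# Antichains of diameter five (MP_f155e9_co): finite facts on the cube of dimension five

Subsets of a set of five points are coded by numbers `< 32`.
-/

set_option autoImplicit false

namespace Pool.Agent.F155S

/-- incomparable codes -/
def R (x y : ℕ) : Bool := !(x &&& y == x || x &&& y == y)

/-- number of binary digits `1` among the first five -/
def pc (z : ℕ) : ℕ :=
  z % 2 + (z / 2) % 2 + (z / 4) % 2 + (z / 8) % 2 + (z / 16) % 2

/-- distance of codes -/
def dst (x y : ℕ) : ℕ := pc (x ^^^ y)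

/-- labels of pairs -/
def EL : List ℕ := [1, 2, 4, 8, 3, 5, 6, 9, 10, 12, 19, 21, 22, 25, 26, 28, 23, 27, 29, 30]

/-- labels of points, first kind (`z` in) -/
def PA : List ℕ := [17, 18, 20, 24, 19, 21, 22, 25, 26, 28, 23, 27, 29, 30, 31]

/-- labels of points, second kind (`z` out) -/
def PR : List ℕ := [0, 1, 2, 4, 8, 3, 5, 6, 9, 10, 12, 7, 11, 13, 14]

/-- upper bound for the size of a set of pairwise incomparable members of the list -/
def mc : ℕ → List ℕ → ℕ
  | 0, l => l.length
  | _ + 1, [] => 0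
  | n + 1, x :: l => max (mc n l) (1 + mc n (l.filter (R x)))

/-- `P` holds for the two lists of candidates compatible with all members of any `k`-element set of
pairwise incomparable members of `l`. -/
def chk (C D : ℕ → ℕ → Bool) (P : List ℕ → List ℕ → Bool) :
    ℕ → ℕ → List ℕ → List ℕ → List ℕ → Bool
  | _, 0, _, c, d => P c d
  | 0, _ + 1, _, _, _ => false
  | _ + 1, _ + 1, [], _, _ => true
  | n + 1, k + 1, x :: l, c, d =>
    chk C D P n k (l.filter (R x)) (c.filter (C x)) (d.filter (D x)) &&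
      chk C D P n (k + 1) l c d

theorem mc_le : ∀ (n : ℕ) (l : List ℕ) (S : Finset ℕ), (∀ x ∈ S, x ∈ l) →
    (∀ x ∈ S, ∀ y ∈ S, x ≠ y → R x y = true) → S.card ≤ mc n l := by
  intro n
  induction n with
  | zero =>
    intro l S h _
    rw [mc]
    calc S.card ≤ l.toFinset.card := Finset.card_le_card (fun x hx => by simpa using h x hx)
      _ ≤ l.length := List.toFinset_card_le l
  | succ n ih =>
    intro l S h hR
    cases l with
    | nil =>
      have : S = ∅ := by
        rw [Finset.eq_empty_iff_forall_notMem]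
        intro x hx
        have := h x hx
        simp at this
      rw [this]
      simp
    | cons a l =>
      rw [mc]
      by_cases ha : a ∈ S
      · have h1 : (S.erase a).card ≤ mc n (l.filter (R a)) := by
          refine ih _ _ ?_ ?_
          · intro x hx
            rw [Finset.mem_erase] at hx
            have h2 := h x hx.2
            rw [List.mem_cons] at h2
            rw [List.mem_filter]
            refine ⟨h2.resolve_left hx.1, hR a ha x hx.2 (Ne.symm hx.1)⟩
          · intro x hx y hy hxy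
            exact hR x (Finset.mem_of_mem_erase hx) y (Finset.mem_of_mem_erase hy) hxy
        rw [Finset.card_erase_of_mem ha] at h1
        omega
      · have h1 : S.card ≤ mc n l := by
          refine ih _ _ ?_ hR
          intro x hx
          have h2 := h x hx
          rw [List.mem_cons] at h2
          refine h2.resolve_left ?_
          rintro rfl
          exact ha hx
        omega

theorem chk_sound (C D : ℕ → ℕ → Bool) (P : List ℕ → List ℕ → Bool) :
    ∀ (n k : ℕ) (l c d : List ℕ), chk C D P n k l c d = true → ∀ B : Finset ℕ,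
    (∀ x ∈ B, x ∈ l) → (∀ x ∈ B, ∀ y ∈ B, x ≠ y → R x y = true) → B.card = k →
    ∃ c' d' : List ℕ, P c' d' = true ∧ (∀ y ∈ c, (∀ x ∈ B, C x y = true) → y ∈ c') ∧
      (∀ y ∈ d, (∀ x ∈ B, D x y = true) → y ∈ d') := by
  intro n
  induction n with
  | zero =>
    intro k l c d h B hB hR hk
    cases k with
    | zero =>
      rw [chk] at h
      exact ⟨c, d, h, fun y hy _ => hy, fun y hy _ => hy⟩
    | succ k =>
      rw [chk] at h
      exact absurd h (by simp)
  | succ n ih =>
    intro k l c d h B hB hR hk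
    cases k with
    | zero =>
      rw [chk] at h
      exact ⟨c, d, h, fun y hy _ => hy, fun y hy _ => hy⟩
    | succ k =>
      cases l with
      | nil =>
        have : B = ∅ := by
          rw [Finset.eq_empty_iff_forall_notMem]
          intro x hx
          have := hB x hx
          simp at this
        rw [this] at hk
        simp at hk
      | cons a l =>
        rw [chk, Bool.and_eq_true] at h
        by_cases ha : a ∈ B
        · obtain ⟨c', d', h1, h2, h3⟩ := ih k _ _ _ h.1 (B.erase a) (by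
              intro x hx
              rw [Finset.mem_erase] at hx
              have h2 := hB x hx.2
              rw [List.mem_cons] at h2
              rw [List.mem_filter]
              exact ⟨h2.resolve_left hx.1, hR a ha x hx.2 (Ne.symm hx.1)⟩)
            (by
              intro x hx y hy hxy
              exact hR x (Finset.mem_of_mem_erase hx) y (Finset.mem_of_mem_erase hy) hxy)
            (by rw [Finset.card_erase_of_mem ha, hk]; rfl)
          refine ⟨c', d', h1, ?_, ?_⟩
          · intro y hy hC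
            exact h2 y (List.mem_filter.2 ⟨hy, hC a ha⟩)
              (fun x hx => hC x (Finset.mem_of_mem_erase hx))
          · intro y hy hC
            exact h3 y (List.mem_filter.2 ⟨hy, hC a ha⟩)
              (fun x hx => hC x (Finset.mem_of_mem_erase hx))
        · refine ih (k + 1) l c d h.2 B ?_ hR hk
          intro x hx
          have h2 := hB x hx
          rw [List.mem_cons] at h2
          refine h2.resolve_left ?_
          rintro rfl
          exact ha hx

/-- pairwise incomparable -/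
def Inc (B : Finset ℕ) : Prop := ∀ x ∈ B, ∀ y ∈ B, x ≠ y → R x y = true

theorem Inc.mono {B B' : Finset ℕ} (h : Inc B) (hs : B' ⊆ B) : Inc B' :=
  fun x hx y hy hxy => h x (hs hx) y (hs hy) hxy

theorem el_le (B : Finset ℕ) (h : ∀ x ∈ B, x ∈ EL) (hB : Inc B) : B.card ≤ 6 :=
  (mc_le 21 EL B h hB).trans (by decide)

theorem pa_le (B : Finset ℕ) (h : ∀ x ∈ B, x ∈ PA) (hB : Inc B) : B.card ≤ 6 :=
  (mc_le 21 PA B h hB).trans (by decide)

theorem pr_le (B : Finset ℕ) (h : ∀ x ∈ B, x ∈ PR) (hB : Inc B) : B.card ≤ 6 :=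
  (mc_le 21 PR B h hB).trans (by decide)

/-- general form of the facts about two families -/
theorem two {l c : List ℕ} {k j r : ℕ}
    (hc : chk (fun x y => decide (dst x y ≤ r)) (fun _ _ => false)
      (fun c _ => decide (mc 21 c ≤ j)) 21 k l c [] = true)
    {B M : Finset ℕ} (hBl : ∀ x ∈ B, x ∈ l) (hB : Inc B) (hk : k ≤ B.card)
    (hMc : ∀ y ∈ M, y ∈ c) (hM : Inc M) (hd : ∀ x ∈ B, ∀ y ∈ M, dst x y ≤ r) :
    M.card ≤ j := by
  obtain ⟨B', hB', hcard⟩ := Finset.exists_subset_card_eq hk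
  obtain ⟨c', d', h1, h2, _⟩ := chk_sound _ _ _ _ _ _ _ _ hc B'
    (fun x hx => hBl x (hB' hx)) (hB.mono hB') hcard
  refine (mc_le 21 c' M ?_ hM).trans (by simpa using h1)
  intro y hy
  exact h2 y (hMc y hy) (fun x hx => by simpa using hd x (hB' hx) y hy)

/-- labels of points -/
def IsPt (B : Finset ℕ) : Prop := (∀ x ∈ B, x ∈ PA) ∨ ∀ x ∈ B, x ∈ PR

theorem pt_le {B : Finset ℕ} (h : IsPt B) (hB : Inc B) : B.card ≤ 6 := by
  rcases h with h | h
  · exact pa_le B h hB
  · exact pr_le B h hB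

set_option maxRecDepth 100000 in
theorem pt_pt {B M : Finset ℕ} (hB : IsPt B) (hBi : Inc B) (hM : IsPt M) (hMi : Inc M)
    (hk : 5 ≤ B.card) (hd : ∀ x ∈ B, ∀ y ∈ M, dst x y ≤ 3) : M.card ≤ 4 := by
  rcases hB with hB | hB <;> rcases hM with hM | hM
  · exact two (l := PA) (c := PA) (r := 3) (by decide) hB hBi hk hM hMi hd
  · exact two (l := PA) (c := PR) (r := 3) (by decide) hB hBi hk hM hMi hd
  · exact two (l := PR) (c := PA) (r := 3) (by decide) hB hBi hk hM hMi hd
  · exact two (l := PR) (c := PR) (r := 3) (by decide) hB hBi hk hM hMi hd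

set_option maxRecDepth 100000 in
theorem far_one {B M : Finset ℕ} (hB : ∀ x ∈ B, x ∈ EL) (hBi : Inc B) (hM : ∀ x ∈ M, x ∈ EL)
    (hMi : Inc M) (hk : 2 ≤ B.card) (hd : ∀ x ∈ B, ∀ y ∈ M, dst x y ≤ 1) : M.card ≤ 1 :=
  two (l := EL) (c := EL) (r := 1) (by decide) hB hBi hk hM hMi hd

set_option maxRecDepth 100000 in
theorem far_zero {B M : Finset ℕ} (hB : ∀ x ∈ B, x ∈ EL) (hBi : Inc B) (hM : ∀ x ∈ M, x ∈ EL)
    (hMi : Inc M) (hk : 4 ≤ B.card) (hd : ∀ x ∈ B, ∀ y ∈ M, dst x y ≤ 1) : M.card ≤ 0 :=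
  two (l := EL) (c := EL) (r := 1) (by decide) hB hBi hk hM hMi hd

set_option maxRecDepth 100000 in
theorem near_four {B M : Finset ℕ} (hB : ∀ x ∈ B, x ∈ EL) (hBi : Inc B) (hM : ∀ x ∈ M, x ∈ EL)
    (hMi : Inc M) (hk : 5 ≤ B.card) (hd : ∀ x ∈ B, ∀ y ∈ M, dst x y ≤ 3) : M.card ≤ 4 :=
  two (l := EL) (c := EL) (r := 3) (by decide) hB hBi hk hM hMi hd

set_option maxRecDepth 100000 in
theorem pair_pt {B M : Finset ℕ} (hB : ∀ x ∈ B, x ∈ EL) (hBi : Inc B) (hM : IsPt M)
    (hMi : Inc M) (hk : 2 ≤ B.card) (hd : ∀ x ∈ B, ∀ y ∈ M, dst x y ≤ 2) : M.card ≤ 4 := by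
  rcases hM with hM | hM
  · exact two (l := EL) (c := PA) (r := 2) (by decide) hB hBi hk hM hMi hd
  · exact two (l := EL) (c := PR) (r := 2) (by decide) hB hBi hk hM hMi hd

theorem three {c d : List ℕ} {j : ℕ}
    (hc : chk (fun x y => decide (dst x y ≤ 1)) (fun x y => decide (dst x y ≤ 2))
      (fun c d => c.isEmpty || decide (mc 21 d ≤ j)) 21 3 EL c d = true)
    {B K M : Finset ℕ} (hBl : ∀ x ∈ B, x ∈ EL) (hB : Inc B) (hk : 3 ≤ B.card)
    (hKc : ∀ y ∈ K, y ∈ c) (hK : K.Nonempty) (hMc : ∀ y ∈ M, y ∈ d) (hM : Inc M)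
    (hd1 : ∀ x ∈ B, ∀ y ∈ K, dst x y ≤ 1) (hd2 : ∀ x ∈ B, ∀ y ∈ M, dst x y ≤ 2) :
    M.card ≤ j := by
  obtain ⟨B', hB', hcard⟩ := Finset.exists_subset_card_eq hk
  obtain ⟨c', d', h1, h2, h3⟩ := chk_sound _ _ _ _ _ _ _ _ hc B'
    (fun x hx => hBl x (hB' hx)) (hB.mono hB') hcard
  obtain ⟨y, hy⟩ := hK
  have h4 := h2 y (hKc y hy) (fun x hx => by simpa using hd1 x (hB' hx) y hy)
  rw [Bool.or_eq_true] at h1
  rcases h1 with h1 | h1
  · rw [List.isEmpty_iff] at h1
    rw [h1] at h4
    simp at h4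
  · refine (mc_le 21 d' M ?_ hM).trans (by simpa using h1)
    intro y hy
    exact h3 y (hMc y hy) (fun x hx => by simpa using hd2 x (hB' hx) y hy)

set_option maxRecDepth 100000 in
theorem pair_pt_three {B K M : Finset ℕ} (hB : ∀ x ∈ B, x ∈ EL) (hBi : Inc B)
    (hK : ∀ x ∈ K, x ∈ EL) (hKn : K.Nonempty) (hM : IsPt M)
    (hMi : Inc M) (hk : 3 ≤ B.card) (hd1 : ∀ x ∈ B, ∀ y ∈ K, dst x y ≤ 1)
    (hd2 : ∀ x ∈ B, ∀ y ∈ M, dst x y ≤ 2) : M.card ≤ 3 := by
  rcases hM with hM | hM
  · exact three (c := EL) (d := PA) (by decide) hB hBi hk hK hKn hM hMi hd1 hd2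
  · exact three (c := EL) (d := PR) (by decide) hB hBi hk hK hKn hM hMi hd1 hd2

end Pool.Agent.F155S
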