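import Pool.Agent.F155S.Main
import Pool.Agent.F155B.Odd

/-!
# Antichains of diameter five (MP_f155e9_co): the bound
-/

set_option autoImplicit false
set_option linter.unusedSectionVars false
set_option linter.unusedDecidableInType false
set_option linter.unusedFintypeInType false

namespace Pool.Agent.F155S

open Finset

variable {α : Type*} [Fintype α] [DecidableEq α]

/-- Three consecutive sizes in `[2, n - 2]`. -/
theorem mid_levels (hn : 6 ≤ Fintype.card α) {T : Finset (Finset α)}
    (hanti : IsAntichain (· ⊆ ·) (T : Set (Finset α)))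
    (hd : ∀ A ∈ T, ∀ B ∈ T, (symmDiff A B).card ≤ 5) (m : ℕ)
    (hm : ∀ A ∈ T, m ≤ A.card ∧ A.card ≤ m + 2)
    (h2 : ∀ A ∈ T, 2 ≤ A.card ∧ A.card + 2 ≤ Fintype.card α) :
    T.card ≤ (Fintype.card α).choose 2 := by
  refine Pool.Agent.F155B.odd_three (s := 2) (c := max (min (m + 1) (Fintype.card α - 3)) 3)
    (by omega) (by omega) hanti (fun A hA B hB => (hd A hA B hB).trans (by omega))
    (fun A hA => ?_) (fun A hA => ?_)
  · have h3 := hm A hA
    have h4 := h2 A hA
    omega
  · have h3 := hm A hA
    have h4 := h2 A hA
    omega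

theorem le_choose (hn : 6 ≤ Fintype.card α) : Fintype.card α ≤ (Fintype.card α).choose 2 := by
  have h := choose_two_add_two (Fintype.card α - 2)
  have h1 : Fintype.card α - 2 + 2 = Fintype.card α := by omega
  rw [h1] at h
  omega

/-- Sizes `1`, `2`, `3`. -/
theorem low_levels (hn : 6 ≤ Fintype.card α) {T : Finset (Finset α)}
    (hanti : IsAntichain (· ⊆ ·) (T : Set (Finset α)))
    (hd : ∀ A ∈ T, ∀ B ∈ T, (symmDiff A B).card ≤ 5)
    (h3 : ∀ A ∈ T, 1 ≤ A.card ∧ A.card ≤ 3) :
    T.card ≤ (Fintype.card α).choose 2 := by
  classical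
  by_cases hs : ∀ A ∈ T, 2 ≤ A.card
  · exact mid_levels hn hanti hd 2 (fun A hA => ⟨hs A hA, by have := h3 A hA; omega⟩)
      (fun A hA => ⟨hs A hA, by have := h3 A hA; omega⟩)
  · push Not at hs
    obtain ⟨S, hS, hS1⟩ := hs
    have hS2 : S.card = 1 := by have := h3 S hS; omega
    obtain ⟨a, rfl⟩ := card_eq_one.1 hS2
    -- the members of size at least two avoid `a`
    set B := T.filter (fun A => 2 ≤ A.card) with hB
    set C := T.filter (fun A => ¬ 2 ≤ A.card) with hC
    have hBC : B.card + C.card = T.card := card_filter_add_card_filter_not _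
    have hav : ∀ A ∈ B, a ∉ A := by
      intro A hA ha
      rw [hB, mem_filter] at hA
      have h1 : ({a} : Finset α) ⊆ A := by simpa using ha
      have h2 := hanti.eq (mem_coe.2 hS) (mem_coe.2 hA.1) h1
      rw [← h2] at hA
      simp at hA
    set P := (univ.erase a).image (fun y => ({a, y} : Finset α)) with hP
    have hPc : P.card = Fintype.card α - 1 := by
      rw [hP, card_image_of_injOn, card_erase_of_mem (mem_univ a), card_univ]
      intro y hy y' hy' h
      have h1 : y ∈ ({a, y'} : Finset α) := by
        have h2 : y ∈ ({a, y} : Finset α) := by simp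
        have h3 : ({a, y} : Finset α) = {a, y'} := h
        rwa [h3] at h2
      have h4 : y ≠ a := by simpa using hy
      simpa [h4] using h1
    have hPm : ∀ A ∈ P, a ∈ A ∧ A.card = 2 := by
      intro A hA
      rw [hP, mem_image] at hA
      obtain ⟨y, hy, rfl⟩ := hA
      have h4 : y ≠ a := by simpa using hy
      exact ⟨by simp, card_pair h4.symm⟩
    have hBm : ∀ A ∈ B, A ∈ T ∧ 2 ≤ A.card ∧ A.card ≤ 3 ∧ a ∉ A := by
      intro A hA
      have h1 := hav A hA
      rw [hB, mem_filter] at hA
      exact ⟨hA.1, hA.2, (h3 A hA.1).2, h1⟩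
    have hdis : Disjoint B P := by
      rw [disjoint_left]
      intro A hA hA'
      exact (hBm A hA).2.2.2 (hPm A hA').1
    have hU : (B ∪ P).card ≤ (Fintype.card α).choose 2 := by
      refine mid_levels hn ?_ ?_ 2 ?_ ?_
      · intro A hA A' hA' hne hsub
        rw [mem_coe, mem_union] at hA hA'
        have hsub' : A ⊆ A' := hsub
        rcases hA with hA | hA <;> rcases hA' with hA' | hA'
        · exact hne (hanti.eq (mem_coe.2 (hBm A hA).1) (mem_coe.2 (hBm A' hA').1) hsub')
        · -- `A` avoids `a`
          have h1 := hBm A hA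
          have h2 := hPm A' hA'
          have h4 : A ⊆ A'.erase a := by
            intro x hx
            rw [mem_erase]
            exact ⟨fun h => h1.2.2.2 (h ▸ hx), hsub' hx⟩
          have h5 := card_le_card h4
          rw [card_erase_of_mem h2.1] at h5
          omega
        · exact (hBm A' hA').2.2.2 (hsub' (hPm A hA).1)
        · exact hne (eq_of_subset_of_card_le hsub' (by
            rw [(hPm A hA).2, (hPm A' hA').2]))
      · intro A hA A' hA'
        rw [mem_union] at hA hA'
        have hle : (symmDiff A A').card ≤ A.card + A'.card := by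
          have h1 : symmDiff A A' ⊆ A ∪ A' := by
            intro x hx
            rw [mem_symmDiff] at hx
            rw [mem_union]
            tauto
          exact (card_le_card h1).trans (card_union_le _ _)
        rcases hA with hA | hA <;> rcases hA' with hA' | hA'
        · exact hd A (hBm A hA).1 A' (hBm A' hA').1
        · have h1 := hBm A hA
          have h2 := hPm A' hA'
          omega
        · have h1 := hBm A' hA'
          have h2 := hPm A hA
          omega
        · have h1 := hPm A' hA'
          have h2 := hPm A hA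
          omega
      · intro A hA
        rw [mem_union] at hA
        rcases hA with hA | hA
        · have := hBm A hA
          omega
        · have := hPm A hA
          omega
      · intro A hA
        rw [mem_union] at hA
        rcases hA with hA | hA
        · have := hBm A hA
          omega
        · have := hPm A hA
          omega
    rw [card_union_of_disjoint hdis, hPc] at hU
    -- the singletons
    have hCs : ∀ A ∈ C, A.card = 1 := by
      intro A hA
      rw [hC, mem_filter] at hA
      have := h3 A hA.1
      omega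
    have hCle : C.card ≤ Fintype.card α := by
      have h1 : C ⊆ powersetCard 1 univ := by
        intro A hA
        rw [mem_powersetCard]
        exact ⟨subset_univ _, hCs A hA⟩
      have h2 := card_le_card h1
      rw [card_powersetCard, Nat.choose_one_right, card_univ] at h2
      exact h2
    rcases Nat.lt_or_ge C.card (Fintype.card α) with hlt | hge
    · omega
    · -- all singletons are members
      have h1 : C ⊆ powersetCard 1 univ := by
        intro A hA
        rw [mem_powersetCard]
        exact ⟨subset_univ _, hCs A hA⟩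
      have h2 : C = powersetCard 1 univ := by
        refine eq_of_subset_of_card_le h1 ?_
        rw [card_powersetCard, Nat.choose_one_right, card_univ]
        exact hge
      have hB0 : B = ∅ := by
        rw [eq_empty_iff_forall_notMem]
        intro A hA
        have h4 := hBm A hA
        obtain ⟨x, hx⟩ : A.Nonempty := card_pos.1 (by omega)
        have h5 : ({x} : Finset α) ∈ C := by
          rw [h2, mem_powersetCard]
          exact ⟨subset_univ _, card_singleton x⟩
        rw [hC, mem_filter] at h5
        have h6 := hanti.eq (mem_coe.2 h5.1) (mem_coe.2 h4.1) (by simpa using hx)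
        rw [← h6] at h4
        simp at h4
      rw [hB0, card_empty] at hBC
      have h7 := le_choose (α := α) hn
      omega

/-- Two members whose sizes differ by at least three. -/
theorem far_levels {T : Finset (Finset α)}
    (hanti : IsAntichain (· ⊆ ·) (T : Set (Finset α)))
    (hd : ∀ A ∈ T, ∀ B ∈ T, (symmDiff A B).card ≤ 5)
    {X Y : Finset α} (hX : X ∈ T) (hY : Y ∈ T) (h : X.card + 3 ≤ Y.card) :
    T.card ≤ (Fintype.card α).choose 2 := by
  classical
  have h1 : (X \ Y).card ≠ 0 := by
    intro h0
    rw [card_eq_zero, sdiff_eq_empty_iff_subset] at h0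
    have h2 := hanti.eq (mem_coe.2 hX) (mem_coe.2 hY) h0
    rw [h2] at h
    omega
  have h2 := hd X hX Y hY
  have h3 : (symmDiff X Y).card = (X \ Y).card + (Y \ X).card := by
    have h4 : symmDiff X Y = (X \ Y) ∪ (Y \ X) := rfl
    rw [h4, card_union_of_disjoint]
    rw [disjoint_left]
    intro x hx hx'
    rw [mem_sdiff] at hx hx'
    exact hx.2 hx'.1
  have h4 := card_sdiff_add_card_inter X Y
  have h5 := card_sdiff_add_card_inter Y X
  rw [inter_comm] at h5
  have h6 : (X \ Y).card = 1 := by omega
  have h7 : (Y \ X).card = 4 := by omega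
  obtain ⟨z, hz⟩ := card_eq_one.1 h6
  obtain ⟨q0, t0, hq0, ht0, hc0⟩ := card_eq_succ.1 h7
  obtain ⟨q1, t1, hq1, ht1, hc1⟩ := card_eq_succ.1 hc0
  obtain ⟨q2, t2, hq2, ht2, hc2⟩ := card_eq_succ.1 hc1
  obtain ⟨q3, hq3⟩ := card_eq_one.1 hc2
  subst hq3
  subst ht2
  subst ht1
  have hzm : ∀ x, (x ∈ X ∧ x ∉ Y) ↔ x = z := by
    intro x
    rw [← mem_sdiff, hz, mem_singleton]
  have hqm : ∀ x, (x ∈ Y ∧ x ∉ X) ↔ (x = q0 ∨ x = q1 ∨ x = q2 ∨ x = q3) := by
    intro x
    rw [← mem_sdiff, ← ht0]
    simp only [mem_insert, mem_singleton]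
  have m0 := (hqm q0).2 (by tauto)
  have m1 := (hqm q1).2 (by tauto)
  have m2 := (hqm q2).2 (by tauto)
  have m3 := (hqm q3).2 (by tauto)
  have mz := (hzm z).2 rfl
  simp only [mem_insert, mem_singleton, not_or] at hq0 hq1 hq2
  exact Setup.bound (X := X) (Y := Y) (q0 := q0) (q1 := q1) (q2 := q2) (q3 := q3) (z := z)
    { anti := hanti
      diam := hd
      hX := hX
      hY := hY
      zX := mz.1
      zY := mz.2
      x0 := m0.2
      x1 := m1.2
      x2 := m2.2
      x3 := m3.2
      y0 := m0.1
      y1 := m1.1
      y2 := m2.1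
      y3 := m3.1
      n01 := hq0.1
      n02 := hq0.2.1
      n03 := hq0.2.2
      n12 := hq1.1
      n13 := hq1.2
      n23 := hq2
      out := by
        intro x hx
        simp only [mem_insert, mem_singleton, not_or] at hx
        have a1 := hzm x
        have a2 := hqm x
        tauto }

/-- An antichain of diameter at most `5` on `n ≥ 6` points has at most `n.choose 2` members. -/
theorem diam_five (hn : 6 ≤ Fintype.card α) {T : Finset (Finset α)}
    (hanti : IsAntichain (· ⊆ ·) (T : Set (Finset α)))
    (hd : ∀ A ∈ T, ∀ B ∈ T, (symmDiff A B).card ≤ 5) :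
    T.card ≤ (Fintype.card α).choose 2 := by
  classical
  rcases T.eq_empty_or_nonempty with rfl | hne
  · simp
  by_cases hfar : ∃ X ∈ T, ∃ Y ∈ T, X.card + 3 ≤ Y.card
  · obtain ⟨X, hX, Y, hY, h⟩ := hfar
    exact far_levels hanti hd hX hY h
  push Not at hfar
  have hpos : 1 ≤ (Fintype.card α).choose 2 := Nat.choose_pos (by omega)
  obtain ⟨A0, hA0, hmin⟩ := exists_min_image T card hne
  obtain ⟨A1, hA1, hmax⟩ := exists_max_image T card hne
  have h01 := hfar A0 hA0 A1 hA1
  have hA1n : A1.card ≤ Fintype.card α := card_le_univ _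
  by_cases hz : A0.card = 0
  · -- the empty set
    rw [card_eq_zero] at hz
    have h1 : T ⊆ {∅} := by
      intro A hA
      rw [mem_singleton]
      exact (hanti.eq (mem_coe.2 (hz ▸ hA0)) (mem_coe.2 hA) (empty_subset A)).symm
    have h2 := card_le_card h1
    rw [card_singleton] at h2
    omega
  by_cases hu : A1.card = Fintype.card α
  · have hu' : A1 = univ := (card_eq_iff_eq_univ A1).1 hu
    have h1 : T ⊆ {univ} := by
      intro A hA
      rw [mem_singleton]
      exact hanti.eq (mem_coe.2 hA) (mem_coe.2 (hu' ▸ hA1)) (subset_univ A)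
    have h2 := card_le_card h1
    rw [card_singleton] at h2
    omega
  by_cases h1 : A0.card = 1
  · refine low_levels hn hanti hd (fun A hA => ?_)
    have a1 := hmin A hA
    have a2 := hmax A hA
    omega
  by_cases h2 : A1.card + 1 = Fintype.card α
  · -- complements
    have hc : T.card = (T.image compl).card := (card_image_of_injective T compl_injective).symm
    rw [hc]
    refine low_levels hn ?_ ?_ ?_
    · intro A hA B hB hne' hsub
      rw [mem_coe, mem_image] at hA hB
      obtain ⟨A', hA', rfl⟩ := hA
      obtain ⟨B', hB', rfl⟩ := hB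
      have hsub' : A'ᶜ ⊆ B'ᶜ := hsub
      rw [compl_subset_compl] at hsub'
      have := hanti.eq (mem_coe.2 hB') (mem_coe.2 hA') hsub'
      exact hne' (by rw [this])
    · intro A hA B hB
      rw [mem_image] at hA hB
      obtain ⟨A', hA', rfl⟩ := hA
      obtain ⟨B', hB', rfl⟩ := hB
      have h4 : symmDiff A'ᶜ B'ᶜ = symmDiff A' B' := by
        ext x
        simp only [mem_symmDiff, mem_compl]
        tauto
      rw [h4]
      exact hd A' hA' B' hB'
    · intro A hA
      rw [mem_image] at hA
      obtain ⟨A', hA', rfl⟩ := hA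
      rw [card_compl]
      have a1 := hmin A' hA'
      have a2 := hmax A' hA'
      omega
  · refine mid_levels hn hanti hd A0.card (fun A hA => ?_) (fun A hA => ?_)
    · have a1 := hmin A hA
      have a2 := hmax A hA
      omega
    · have a1 := hmin A hA
      have a2 := hmax A hA
      omega

/-- The bound of Q1 for `n - k = 5`, `k ≥ 1`. -/
theorem bound_five (n k : ℕ) (hk : 1 ≤ k) (hkn : n - k = 5)
    (F : Finset (Finset (Fin n))) (hanti : IsAntichain (· ⊆ ·) (F : Set (Finset (Fin n))))
    (hdiam : ∀ A ∈ F, ∀ B ∈ F, (symmDiff A B).card ≤ n - k) :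
    F.card ≤ n.choose ((n + k + 1) / 2) := by
  have hc : Fintype.card (Fin n) = n := Fintype.card_fin n
  have hsymm : n.choose ((n + k + 1) / 2) = n.choose 2 := by
    rw [← Nat.choose_symm (show (n + k + 1) / 2 ≤ n by omega)]
    congr 1
    omega
  rw [hsymm]
  have h := diam_five (α := Fin n) (by rw [hc]; omega) hanti
    (fun A hA B hB => (hdiam A hA B hB).trans (by omega))
  rwa [hc] at h

end Pool.Agent.F155S
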