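import Pool.Agent.F155S.Cube
import Pool.Agent.F155S.Count

/-!
# Antichains of diameter five (MP_f155e9_co): members as traces with labels
-/

set_option autoImplicit false

namespace Pool.Agent.F155S

open Finset

/-- code of a subset of five points -/
def code (b0 b1 b2 b3 b4 : Bool) : ℕ :=
  (if b0 then 1 else 0) + (if b1 then 2 else 0) + (if b2 then 4 else 0) + (if b3 then 8 else 0) +
    (if b4 then 16 else 0)

set_option maxRecDepth 100000 in
theorem dst_code : ∀ b0 b1 b2 b3 b4 c0 c1 c2 c3 c4 : Bool,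
    dst (code b0 b1 b2 b3 b4) (code c0 c1 c2 c3 c4) =
      (if b0 = c0 then 0 else 1) + (if b1 = c1 then 0 else 1) + (if b2 = c2 then 0 else 1) +
      (if b3 = c3 then 0 else 1) + (if b4 = c4 then 0 else 1) := by
  decide

/-- inclusion of codes, on the digits -/
def leB (b0 b1 b2 b3 b4 c0 c1 c2 c3 c4 : Bool) : Bool :=
  (!b0 || c0) && (!b1 || c1) && (!b2 || c2) && (!b3 || c3) && (!b4 || c4)

theorem leB_iff (b0 b1 b2 b3 b4 c0 c1 c2 c3 c4 : Bool) :
    leB b0 b1 b2 b3 b4 c0 c1 c2 c3 c4 = true →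
      (b0 = true → c0 = true) ∧ (b1 = true → c1 = true) ∧ (b2 = true → c2 = true) ∧
      (b3 = true → c3 = true) ∧ (b4 = true → c4 = true) := by
  simp only [leB, Bool.and_eq_true, Bool.or_eq_true, Bool.not_eq_true']
  rintro ⟨⟨⟨⟨h0, h1⟩, h2⟩, h3⟩, h4⟩
  refine ⟨fun h => ?_, fun h => ?_, fun h => ?_, fun h => ?_, fun h => ?_⟩
  · simpa [h] using h0
  · simpa [h] using h1
  · simpa [h] using h2
  · simpa [h] using h3
  · simpa [h] using h4

set_option maxRecDepth 100000 in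
theorem R_code : ∀ b0 b1 b2 b3 b4 c0 c1 c2 c3 c4 : Bool,
    (R (code b0 b1 b2 b3 b4) (code c0 c1 c2 c3 c4) || leB b0 b1 b2 b3 b4 c0 c1 c2 c3 c4 ||
      leB c0 c1 c2 c3 c4 b0 b1 b2 b3 b4) = true := by
  decide

theorem code_inj : ∀ b0 b1 b2 b3 b4 c0 c1 c2 c3 c4 : Bool,
    code b0 b1 b2 b3 b4 = code c0 c1 c2 c3 c4 →
      b0 = c0 ∧ b1 = c1 ∧ b2 = c2 ∧ b3 = c3 ∧ b4 = c4 := by
  decide

theorem code_EL : ∀ b0 b1 b2 b3 b4 : Bool,
    2 ≤ (if b0 then 1 else 0) + (if b1 then 1 else 0) + (if b2 then 1 else 0) +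
      (if b3 then 1 else 0) + (if b4 then 0 else 1) →
    (if b0 then 1 else 0) + (if b1 then 1 else 0) + (if b2 then 1 else 0) +
      (if b3 then 1 else 0) + (if b4 then 0 else 1) ≤ 3 → code b0 b1 b2 b3 b4 ∈ EL := by
  decide

theorem code_PA : ∀ b0 b1 b2 b3 : Bool, (b0 || b1 || b2 || b3) = true →
    code b0 b1 b2 b3 true ∈ PA := by
  decide

theorem code_PR : ∀ b0 b1 b2 b3 : Bool, (b0 && b1 && b2 && b3) = false →
    code b0 b1 b2 b3 false ∈ PR := by
  decide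

end Pool.Agent.F155S
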