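import Pool.Agent.F155S.Label

/-!
# Antichains of diameter five (MP_f155e9_co): four levels
-/

set_option autoImplicit false
set_option linter.unusedSectionVars false
set_option linter.unusedDecidableInType false
set_option linter.unusedFintypeInType false

namespace Pool.Agent.F155S

open Finset

variable {α : Type*} [Fintype α] [DecidableEq α]

/-- Two members `X`, `Y` of an antichain of diameter at most `5` with `X \ Y = {z}`,
`Y \ X = {q0, q1, q2, q3}`. -/
structure Setup (T : Finset (Finset α)) (X Y : Finset α) (q0 q1 q2 q3 z : α) : Prop where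
  anti : IsAntichain (· ⊆ ·) (T : Set (Finset α))
  diam : ∀ A ∈ T, ∀ B ∈ T, (symmDiff A B).card ≤ 5
  hX : X ∈ T
  hY : Y ∈ T
  zX : z ∈ X
  zY : z ∉ Y
  x0 : q0 ∉ X
  x1 : q1 ∉ X
  x2 : q2 ∉ X
  x3 : q3 ∉ X
  y0 : q0 ∈ Y
  y1 : q1 ∈ Y
  y2 : q2 ∈ Y
  y3 : q3 ∈ Y
  n01 : q0 ≠ q1
  n02 : q0 ≠ q2
  n03 : q0 ≠ q3
  n12 : q1 ≠ q2
  n13 : q1 ≠ q3
  n23 : q2 ≠ q3
  out : ∀ x, x ∉ ({q0, q1, q2, q3, z} : Finset α) → (x ∈ X ↔ x ∈ Y)

/-- label of a set -/
def lab (q0 q1 q2 q3 z : α) (Z : Finset α) : ℕ :=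
  code (decide (q0 ∈ Z)) (decide (q1 ∈ Z)) (decide (q2 ∈ Z)) (decide (q3 ∈ Z)) (decide (z ∈ Z))

/-- trace of a set -/
def sg (X Q Z : Finset α) : Finset α := symmDiff Z X \ Q

theorem sg_symm (X Q A B : Finset α) : symmDiff (sg X Q A) (sg X Q B) = symmDiff A B \ Q := by
  ext x
  simp only [sg, mem_symmDiff, mem_sdiff]
  tauto

theorem sg_same {X Q A B : Finset α} (h : sg X Q A = sg X Q B) {x : α} (hx : x ∉ Q) :
    x ∈ A ↔ x ∈ B := by
  have h1 : x ∈ sg X Q A ↔ x ∈ sg X Q B := by rw [h]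
  simp only [sg, mem_symmDiff, mem_sdiff] at h1
  tauto

theorem term_eq (A B : Finset α) (x : α) :
    (if x ∈ symmDiff A B then 1 else 0) = if decide (x ∈ A) = decide (x ∈ B) then 0 else 1 := by
  by_cases h1 : x ∈ A <;> by_cases h2 : x ∈ B <;> simp [mem_symmDiff, h1, h2]

namespace Setup

variable {T : Finset (Finset α)} {X Y : Finset α} {q0 q1 q2 q3 z : α}

theorem card_symm (S : Setup T X Y q0 q1 q2 q3 z) (A B : Finset α) :
    (symmDiff A B).card =
      (symmDiff (sg X {q0, q1, q2, q3, z} A) (sg X {q0, q1, q2, q3, z} B)).card +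
        dst (lab q0 q1 q2 q3 z A) (lab q0 q1 q2 q3 z B) := by
  have hz0 : q0 ≠ z := fun h => S.x0 (h ▸ S.zX)
  have hz1 : q1 ≠ z := fun h => S.x1 (h ▸ S.zX)
  have hz2 : q2 ≠ z := fun h => S.x2 (h ▸ S.zX)
  have hz3 : q3 ≠ z := fun h => S.x3 (h ▸ S.zX)
  rw [sg_symm, lab, lab, dst_code, ← card_sdiff_add_card_inter (symmDiff A B) {q0, q1, q2, q3, z}]
  congr 1
  rw [inter_comm, ← filter_mem_eq_inter, card_filter]
  rw [sum_insert (by simp [S.n01, S.n02, S.n03, hz0]), sum_insert (by simp [S.n12, S.n13, hz1]),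
    sum_insert (by simp [S.n23, hz2]), sum_insert (by simp [hz3]), sum_singleton]
  simp only [term_eq]
  ring

theorem sub_of_le {A B : Finset α}
    (h : sg X {q0, q1, q2, q3, z} A = sg X {q0, q1, q2, q3, z} B)
    (hle : leB (decide (q0 ∈ A)) (decide (q1 ∈ A)) (decide (q2 ∈ A)) (decide (q3 ∈ A))
      (decide (z ∈ A)) (decide (q0 ∈ B)) (decide (q1 ∈ B)) (decide (q2 ∈ B)) (decide (q3 ∈ B))
      (decide (z ∈ B)) = true) : A ⊆ B := by
  obtain ⟨h0, h1, h2, h3, h4⟩ := leB_iff _ _ _ _ _ _ _ _ _ _ hle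
  simp only [decide_eq_true_eq] at h0 h1 h2 h3 h4
  intro x hx
  by_cases hQ : x ∈ ({q0, q1, q2, q3, z} : Finset α)
  · simp only [mem_insert, mem_singleton] at hQ
    rcases hQ with rfl | rfl | rfl | rfl | rfl
    · exact h0 hx
    · exact h1 hx
    · exact h2 hx
    · exact h3 hx
    · exact h4 hx
  · exact (sg_same h hQ).1 hx

theorem lab_inj {A B : Finset α}
    (h : sg X {q0, q1, q2, q3, z} A = sg X {q0, q1, q2, q3, z} B)
    (hl : lab q0 q1 q2 q3 z A = lab q0 q1 q2 q3 z B) : A = B := by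
  obtain ⟨h0, h1, h2, h3, h4⟩ := code_inj _ _ _ _ _ _ _ _ _ _ hl
  simp only [decide_eq_decide] at h0 h1 h2 h3 h4
  ext x
  by_cases hQ : x ∈ ({q0, q1, q2, q3, z} : Finset α)
  · simp only [mem_insert, mem_singleton] at hQ
    rcases hQ with rfl | rfl | rfl | rfl | rfl
    · exact h0
    · exact h1
    · exact h2
    · exact h3
    · exact h4
  · exact sg_same h hQ

theorem sg_X : sg X {q0, q1, q2, q3, z} X = ∅ := by
  simp [sg]

theorem sg_Y (S : Setup T X Y q0 q1 q2 q3 z) : sg X {q0, q1, q2, q3, z} Y = ∅ := by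
  rw [eq_empty_iff_forall_notMem]
  intro x hx
  rw [sg, mem_sdiff, mem_symmDiff] at hx
  have := S.out x hx.2
  tauto

/-- the number of digits in which a set differs from `X` -/
def dX (q0 q1 q2 q3 z : α) (Z : Finset α) : ℕ :=
  (if decide (q0 ∈ Z) then 1 else 0) + (if decide (q1 ∈ Z) then 1 else 0) +
    (if decide (q2 ∈ Z) then 1 else 0) +
      (if decide (q3 ∈ Z) then 1 else 0) + (if decide (z ∈ Z) then 0 else 1)

theorem dX_le (Z : Finset α) : dX q0 q1 q2 q3 z Z ≤ 5 := by
  unfold dX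
  split_ifs <;> omega

theorem card_X (S : Setup T X Y q0 q1 q2 q3 z) (Z : Finset α) :
    (symmDiff Z X).card = (sg X {q0, q1, q2, q3, z} Z).card + dX q0 q1 q2 q3 z Z := by
  rw [S.card_symm Z X, sg_X, lab, lab, dst_code, dX]
  have e0 : decide (q0 ∈ X) = false := by simpa using S.x0
  have e1 : decide (q1 ∈ X) = false := by simpa using S.x1
  have e2 : decide (q2 ∈ X) = false := by simpa using S.x2
  have e3 : decide (q3 ∈ X) = false := by simpa using S.x3
  have e4 : decide (z ∈ X) = true := by simpa using S.zX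
  rw [e0, e1, e2, e3, e4]
  have h : symmDiff (sg X {q0, q1, q2, q3, z} Z) ∅ = sg X {q0, q1, q2, q3, z} Z := by
    ext x
    simp [mem_symmDiff]
  rw [h]
  congr 1
  cases decide (q0 ∈ Z) <;> cases decide (q1 ∈ Z) <;> cases decide (q2 ∈ Z) <;>
    cases decide (q3 ∈ Z) <;> cases decide (z ∈ Z) <;> rfl

theorem card_Y (S : Setup T X Y q0 q1 q2 q3 z) (Z : Finset α) :
    (symmDiff Z Y).card + dX q0 q1 q2 q3 z Z = (sg X {q0, q1, q2, q3, z} Z).card + 5 := by
  rw [S.card_symm Z Y, S.sg_Y, lab, lab, dst_code, dX]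
  have e0 : decide (q0 ∈ Y) = true := by simpa using S.y0
  have e1 : decide (q1 ∈ Y) = true := by simpa using S.y1
  have e2 : decide (q2 ∈ Y) = true := by simpa using S.y2
  have e3 : decide (q3 ∈ Y) = true := by simpa using S.y3
  have e4 : decide (z ∈ Y) = false := by simpa using S.zY
  rw [e0, e1, e2, e3, e4]
  have h : symmDiff (sg X {q0, q1, q2, q3, z} Z) ∅ = sg X {q0, q1, q2, q3, z} Z := by
    ext x
    simp [mem_symmDiff]
  rw [h]
  cases decide (q0 ∈ Z) <;> cases decide (q1 ∈ Z) <;> cases decide (q2 ∈ Z) <;>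
    cases decide (q3 ∈ Z) <;> cases decide (z ∈ Z) <;> simp

/-- the set of labels of the members with trace `σ` -/
def M (T : Finset (Finset α)) (X : Finset α) (q0 q1 q2 q3 z : α) (σ : Finset α) : Finset ℕ :=
  (T.filter (fun Z => sg X {q0, q1, q2, q3, z} Z = σ)).image (lab q0 q1 q2 q3 z)

theorem mem_M {σ : Finset α} {x : ℕ} (hx : x ∈ M T X q0 q1 q2 q3 z σ) :
    ∃ Z ∈ T, sg X {q0, q1, q2, q3, z} Z = σ ∧ lab q0 q1 q2 q3 z Z = x := by
  rw [M, mem_image] at hx
  obtain ⟨Z, hZ, rfl⟩ := hx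
  rw [mem_filter] at hZ
  exact ⟨Z, hZ.1, hZ.2, rfl⟩

theorem card_M (σ : Finset α) : (M T X q0 q1 q2 q3 z σ).card =
    (T.filter (fun Z => sg X {q0, q1, q2, q3, z} Z = σ)).card := by
  rw [M, card_image_of_injOn]
  intro A hA B hB h
  rw [mem_coe, mem_filter] at hA hB
  exact lab_inj (hA.2.trans hB.2.symm) h

theorem M_inc (S : Setup T X Y q0 q1 q2 q3 z) (σ : Finset α) : Inc (M T X q0 q1 q2 q3 z σ) := by
  intro x hx y hy hxy
  obtain ⟨A, hA, hAσ, rfl⟩ := mem_M hx
  obtain ⟨B, hB, hBσ, rfl⟩ := mem_M hy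
  have hAB : A ≠ B := fun h => hxy (by rw [h])
  have h := R_code (decide (q0 ∈ A)) (decide (q1 ∈ A)) (decide (q2 ∈ A)) (decide (q3 ∈ A))
    (decide (z ∈ A)) (decide (q0 ∈ B)) (decide (q1 ∈ B)) (decide (q2 ∈ B)) (decide (q3 ∈ B))
    (decide (z ∈ B))
  rw [Bool.or_eq_true, Bool.or_eq_true] at h
  rcases h with (h | h) | h
  · exact h
  · exact absurd (sub_of_le (hAσ.trans hBσ.symm) h) (S.anti hA hB hAB)
  · exact absurd (sub_of_le (hBσ.trans hAσ.symm) h) (S.anti hB hA hAB.symm)

theorem M_dst (S : Setup T X Y q0 q1 q2 q3 z) {σ τ : Finset α} {r : ℕ}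
    (hr : 5 ≤ (symmDiff σ τ).card + r) :
    ∀ x ∈ M T X q0 q1 q2 q3 z σ, ∀ y ∈ M T X q0 q1 q2 q3 z τ, dst x y ≤ r := by
  intro x hx y hy
  obtain ⟨A, hA, hAσ, rfl⟩ := mem_M hx
  obtain ⟨B, hB, hBσ, rfl⟩ := mem_M hy
  have h1 := S.diam A hA B hB
  rw [S.card_symm A B, hAσ, hBσ] at h1
  omega

theorem M_EL (S : Setup T X Y q0 q1 q2 q3 z) {σ : Finset α} (hσ : σ.card = 2) :
    ∀ x ∈ M T X q0 q1 q2 q3 z σ, x ∈ EL := by
  intro x hx
  obtain ⟨A, hA, hAσ, rfl⟩ := mem_M hx
  have h1 := S.diam A hA X S.hX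
  have h2 := S.diam A hA Y S.hY
  have h3 := S.card_X A
  have h4 := S.card_Y A
  rw [hAσ, hσ] at h3 h4
  rw [dX] at h3 h4
  exact code_EL _ _ _ _ _ (by omega) (by omega)

theorem M_pt (S : Setup T X Y q0 q1 q2 q3 z) {e : α}
    (he : e ∉ ({q0, q1, q2, q3, z} : Finset α)) : IsPt (M T X q0 q1 q2 q3 z {e}) := by
  by_cases heX : e ∈ X
  · left
    intro x hx
    obtain ⟨A, hA, hAσ, rfl⟩ := mem_M hx
    have hAx : ∀ x, x ∉ ({q0, q1, q2, q3, z} : Finset α) → (x ∈ A ↔ (x ∈ X ∧ x ≠ e)) := by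
      intro x hx
      have h1 : x ∈ sg X {q0, q1, q2, q3, z} A ↔ x = e := by rw [hAσ, mem_singleton]
      rw [sg, mem_sdiff, mem_symmDiff] at h1
      by_cases hxe : x = e
      · subst hxe
        tauto
      · tauto
    have heA : e ∉ A := fun h => ((hAx e he).1 h).2 rfl
    have hzA : z ∈ A := by
      by_contra hcon
      have hsub : A ⊆ Y := by
        intro x hxA
        by_cases hQ : x ∈ ({q0, q1, q2, q3, z} : Finset α)
        · simp only [mem_insert, mem_singleton] at hQ
          rcases hQ with rfl | rfl | rfl | rfl | rfl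
          · exact S.y0
          · exact S.y1
          · exact S.y2
          · exact S.y3
          · exact absurd hxA hcon
        · exact (S.out x hQ).1 ((hAx x hQ).1 hxA).1
      have hne : A ≠ Y := fun h => heA (h ▸ (S.out e he).1 heX)
      exact S.anti hA S.hY hne hsub
    rw [lab]
    have e4 : decide (z ∈ A) = true := by simpa using hzA
    rw [e4]
    apply code_PA
    by_contra hcon
    simp only [Bool.or_eq_true, decide_eq_true_eq, not_or] at hcon
    obtain ⟨⟨⟨c0, c1⟩, c2⟩, c3⟩ := hcon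
    have hsub : A ⊆ X := by
      intro x hxA
      by_cases hQ : x ∈ ({q0, q1, q2, q3, z} : Finset α)
      · simp only [mem_insert, mem_singleton] at hQ
        rcases hQ with rfl | rfl | rfl | rfl | rfl
        · exact absurd hxA c0
        · exact absurd hxA c1
        · exact absurd hxA c2
        · exact absurd hxA c3
        · exact S.zX
      · exact ((hAx x hQ).1 hxA).1
    exact S.anti hA S.hX (fun h => heA (h ▸ heX)) hsub
  · right
    intro x hx
    obtain ⟨A, hA, hAσ, rfl⟩ := mem_M hx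
    have hAx : ∀ x, x ∉ ({q0, q1, q2, q3, z} : Finset α) → (x ∈ A ↔ (x ∈ X ∨ x = e)) := by
      intro x hx
      have h1 : x ∈ sg X {q0, q1, q2, q3, z} A ↔ x = e := by rw [hAσ, mem_singleton]
      rw [sg, mem_sdiff, mem_symmDiff] at h1
      by_cases hxe : x = e
      · subst hxe
        tauto
      · tauto
    have heA : e ∈ A := (hAx e he).2 (Or.inr rfl)
    have hzA : z ∉ A := by
      intro hcon
      have hsub : X ⊆ A := by
        intro x hxX
        by_cases hQ : x ∈ ({q0, q1, q2, q3, z} : Finset α)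
        · simp only [mem_insert, mem_singleton] at hQ
          rcases hQ with rfl | rfl | rfl | rfl | rfl
          · exact absurd hxX S.x0
          · exact absurd hxX S.x1
          · exact absurd hxX S.x2
          · exact absurd hxX S.x3
          · exact hcon
        · exact (hAx x hQ).2 (Or.inl hxX)
      exact S.anti S.hX hA (fun h => heX (h ▸ heA)) hsub
    rw [lab]
    have e4 : decide (z ∈ A) = false := by simpa using hzA
    rw [e4]
    apply code_PR
    by_contra hcon
    simp only [Bool.not_eq_false, Bool.and_eq_true, decide_eq_true_eq] at hcon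
    obtain ⟨⟨⟨c0, c1⟩, c2⟩, c3⟩ := hcon
    have hsub : Y ⊆ A := by
      intro x hxY
      by_cases hQ : x ∈ ({q0, q1, q2, q3, z} : Finset α)
      · simp only [mem_insert, mem_singleton] at hQ
        rcases hQ with rfl | rfl | rfl | rfl | rfl
        · exact c0
        · exact c1
        · exact c2
        · exact c3
        · exact absurd hxY S.zY
      · exact (hAx x hQ).2 (Or.inl ((S.out x hQ).2 hxY))
    have heY : e ∉ Y := fun h => heX ((S.out e he).2 h)
    exact S.anti S.hY hA (fun h => heY (h ▸ heA)) hsub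

theorem M_empty (S : Setup T X Y q0 q1 q2 q3 z) :
    (T.filter (fun Z => sg X {q0, q1, q2, q3, z} Z = ∅)).card ≤ 2 := by
  have hsub : T.filter (fun Z => sg X {q0, q1, q2, q3, z} Z = ∅) ⊆ {X, Y} := by
    intro A hA
    rw [mem_filter] at hA
    obtain ⟨hA, hAσ⟩ := hA
    rw [mem_insert, mem_singleton]
    have h1 : sg X {q0, q1, q2, q3, z} A = sg X {q0, q1, q2, q3, z} X := by rw [hAσ, sg_X]
    have h2 : sg X {q0, q1, q2, q3, z} A = sg X {q0, q1, q2, q3, z} Y := by rw [hAσ, S.sg_Y]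
    by_cases hz : z ∈ A
    · left
      by_contra hne
      refine S.anti S.hX hA (Ne.symm hne) ?_
      intro x hxX
      by_cases hQ : x ∈ ({q0, q1, q2, q3, z} : Finset α)
      · simp only [mem_insert, mem_singleton] at hQ
        rcases hQ with rfl | rfl | rfl | rfl | rfl
        · exact absurd hxX S.x0
        · exact absurd hxX S.x1
        · exact absurd hxX S.x2
        · exact absurd hxX S.x3
        · exact hz
      · exact (sg_same h1 hQ).2 hxX
    · right
      by_contra hne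
      refine S.anti hA S.hY hne ?_
      intro x hxA
      by_cases hQ : x ∈ ({q0, q1, q2, q3, z} : Finset α)
      · simp only [mem_insert, mem_singleton] at hQ
        rcases hQ with rfl | rfl | rfl | rfl | rfl
        · exact S.y0
        · exact S.y1
        · exact S.y2
        · exact S.y3
        · exact absurd hxA hz
      · exact (sg_same h2 hQ).1 hxA
  refine (card_le_card hsub).trans ?_
  exact (card_insert_le _ _).trans (by simp)

theorem mult (S : Setup T X Y q0 q1 q2 q3 z) :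
    Mult (univ \ {q0, q1, q2, q3, z}) (fun σ => (M T X q0 q1 q2 q3 z σ).card) := by
  have hpt : ∀ e ∈ univ \ ({q0, q1, q2, q3, z} : Finset α), IsPt (M T X q0 q1 q2 q3 z {e}) :=
    fun e he => S.M_pt (mem_sdiff.1 he).2
  have hpr : ∀ π ∈ powersetCard 2 (univ \ ({q0, q1, q2, q3, z} : Finset α)),
      ∀ x ∈ M T X q0 q1 q2 q3 z π, x ∈ EL := fun π hπ => S.M_EL (mem_powersetCard.1 hπ).2
  have hdisj : ∀ π ∈ powersetCard 2 (univ \ ({q0, q1, q2, q3, z} : Finset α)),
      ∀ π' ∈ powersetCard 2 (univ \ ({q0, q1, q2, q3, z} : Finset α)), Disjoint π π' →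
      (symmDiff π π').card = 4 := by
    intro π hπ π' hπ' h
    rw [h.symmDiff_eq_sup]
    show (π ∪ π').card = 4
    rw [card_union_of_disjoint h, (mem_powersetCard.1 hπ).2, (mem_powersetCard.1 hπ').2]
  have hpp : ∀ π ∈ powersetCard 2 (univ \ ({q0, q1, q2, q3, z} : Finset α)), ∀ h : α, h ∉ π →
      (symmDiff π {h}).card = 3 := by
    intro π hπ h hh
    have hd : Disjoint π {h} := by rwa [disjoint_singleton_right]
    rw [hd.symmDiff_eq_sup]
    show (π ∪ {h}).card = 3
    rw [card_union_of_disjoint hd, (mem_powersetCard.1 hπ).2, card_singleton]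
  refine ⟨?_, ?_, ?_, ?_, ?_, ?_, ?_, ?_⟩
  · intro e he
    exact pt_le (hpt e he) (S.M_inc _)
  · intro e he f hf hef h5
    have h2 : (symmDiff ({e} : Finset α) {f}).card = 2 := by
      have hd : Disjoint ({e} : Finset α) {f} := by
        rw [disjoint_singleton]
        exact hef
      rw [hd.symmDiff_eq_sup]
      show (({e} : Finset α) ∪ {f}).card = 2
      rw [card_union_of_disjoint hd, card_singleton, card_singleton]
    exact pt_pt (hpt e he) (S.M_inc _) (hpt f hf) (S.M_inc _) h5 (S.M_dst (by omega))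
  · intro π hπ
    exact el_le _ (hpr π hπ) (S.M_inc _)
  · intro π hπ π' hπ' hd h2
    have := hdisj π hπ π' hπ' hd
    exact far_one (hpr π hπ) (S.M_inc _) (hpr π' hπ') (S.M_inc _) h2 (S.M_dst (by omega))
  · intro π hπ π' hπ' hd h2
    have := hdisj π hπ π' hπ' hd
    exact Nat.le_zero.1
      (far_zero (hpr π hπ) (S.M_inc _) (hpr π' hπ') (S.M_inc _) h2 (S.M_dst (by omega)))
  · intro π hπ π' hπ' hne h5
    have h2 : 2 ≤ (symmDiff π π').card := by
      have c1 := (mem_powersetCard.1 hπ).2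
      have c2 := (mem_powersetCard.1 hπ').2
      have h6 : (symmDiff π π').card = (π \ π').card + (π' \ π).card := by
        rw [symmDiff_def]
        exact card_union_of_disjoint disjoint_sdiff_sdiff
      have h7 := card_sdiff_add_card_inter π π'
      have h8 := card_sdiff_add_card_inter π' π
      rw [inter_comm] at h8
      have h9 : (π \ π').card ≠ 0 := by
        intro h
        rw [card_eq_zero, sdiff_eq_empty_iff_subset] at h
        exact hne (eq_of_subset_of_card_le h (by omega))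
      omega
    exact near_four (hpr π hπ) (S.M_inc _) (hpr π' hπ') (S.M_inc _) h5 (S.M_dst (by omega))
  · intro π hπ h hh hn h2
    have := hpp π hπ h hn
    exact pair_pt (hpr π hπ) (S.M_inc _) (hpt h hh) (S.M_inc _) h2 (S.M_dst (by omega))
  · intro π hπ π' hπ' hd h3 h1 h hh hn
    have c1 := hpp π hπ h hn
    have c2 := hdisj π hπ π' hπ' hd
    exact pair_pt_three (hpr π hπ) (S.M_inc _) (hpr π' hπ') (card_pos.1 h1) (hpt h hh)
      (S.M_inc _) h3 (S.M_dst (by omega)) (S.M_dst (by omega))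

theorem bound (S : Setup T X Y q0 q1 q2 q3 z) : T.card ≤ (Fintype.card α).choose 2 := by
  have hz0 : q0 ≠ z := fun h => S.x0 (h ▸ S.zX)
  have hz1 : q1 ≠ z := fun h => S.x1 (h ▸ S.zX)
  have hz2 : q2 ≠ z := fun h => S.x2 (h ▸ S.zX)
  have hz3 : q3 ≠ z := fun h => S.x3 (h ▸ S.zX)
  have hQ : ({q0, q1, q2, q3, z} : Finset α).card = 5 := by
    rw [card_insert_of_notMem (by simp [S.n01, S.n02, S.n03, hz0]),
      card_insert_of_notMem (by simp [S.n12, S.n13, hz1]),
      card_insert_of_notMem (by simp [S.n23, hz2]),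
      card_insert_of_notMem (by simp [hz3]), card_singleton]
  have hN : (univ \ ({q0, q1, q2, q3, z} : Finset α)).card + 5 = Fintype.card α := by
    have := card_sdiff_add_card_inter (univ : Finset α) {q0, q1, q2, q3, z}
    rw [univ_inter, hQ, card_univ] at this
    exact this
  have hc := count S.mult
  set N := univ \ ({q0, q1, q2, q3, z} : Finset α) with hNdef
  have hmem : ∀ Z ∈ T, sg X {q0, q1, q2, q3, z} Z ⊆ N := by
    intro Z _ x hx
    rw [sg, mem_sdiff] at hx
    rw [hNdef, mem_sdiff]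
    exact ⟨mem_univ _, hx.2⟩
  have hcard : ∀ Z ∈ T, (sg X {q0, q1, q2, q3, z} Z).card < 3 := by
    intro Z hZ
    have h1 := S.diam Z hZ X S.hX
    have h2 := S.diam Z hZ Y S.hY
    have h3 := S.card_X Z
    have h4 := S.card_Y Z
    omega
  have hsum : T.card = ∑ i ∈ range 3,
      (T.filter (fun Z => (sg X {q0, q1, q2, q3, z} Z).card = i)).card :=
    card_eq_sum_card_fiberwise (fun Z hZ => by
      rw [mem_coe, mem_range]
      exact hcard Z hZ)
  have hpart : ∀ i, (T.filter (fun Z => (sg X {q0, q1, q2, q3, z} Z).card = i)).card ≤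
      ∑ σ ∈ powersetCard i N, (T.filter (fun Z => sg X {q0, q1, q2, q3, z} Z = σ)).card := by
    intro i
    have h1 : (T.filter (fun Z => (sg X {q0, q1, q2, q3, z} Z).card = i)).card =
        ∑ σ ∈ powersetCard i N, ((T.filter (fun Z => (sg X {q0, q1, q2, q3, z} Z).card = i)).filter
          (fun Z => sg X {q0, q1, q2, q3, z} Z = σ)).card :=
      card_eq_sum_card_fiberwise (fun Z hZ => by
        rw [mem_coe, mem_filter] at hZ
        rw [mem_coe, mem_powersetCard]
        exact ⟨hmem Z hZ.1, hZ.2⟩)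
    rw [h1]
    refine sum_le_sum (fun σ _ => card_le_card ?_)
    intro Z hZ
    rw [mem_filter, mem_filter] at hZ
    rw [mem_filter]
    exact ⟨hZ.1.1, hZ.2⟩
  have p0 := hpart 0
  have p1 := hpart 1
  have p2 := hpart 2
  rw [powersetCard_zero, sum_singleton] at p0
  rw [powersetCard_one, sum_map] at p1
  have pe := S.M_empty
  simp only [card_M] at hc
  rw [sum_range_succ, sum_range_succ, sum_range_one] at hsum
  simp only [Function.Embedding.coeFn_mk] at p1
  have e1 : (Fintype.card α).choose 2 = N.card.choose 2 + 5 * N.card + 10 := by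
    rw [← hN]
    have k1 := choose_two_add_two N.card
    have k2 := choose_two_add_two (N.card + 2)
    have k3 : (N.card + 5).choose 2 = (N.card + 4) + (N.card + 4).choose 2 := by
      have := Nat.choose_succ_succ (N.card + 4) 1
      simpa using this
    have k4 : (N.card + 2 + 2).choose 2 = (N.card + 4).choose 2 := rfl
    omega
  omega

end Setup

end Pool.Agent.F155S
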